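import Pool.Agent.Q276.HL.Stm

/-!
From a basis to a good form, sizes (`StmtGDS` of `Pool/Agent/Q276/HL/Stm.lean`); model
`Pool/Agent/W490/HZ/GD1.lean`.
-/

set_option autoImplicit false

namespace Pool.Agent.Q234.HL.GDS

open Pool.Agent.Q276.HL

theorem quad_bound {R α V x y A B : ℝ} (hR : 20 ≤ R) (hα : 0 < α) (hV : V ^ 2 * R = α) (hV1 : 1 ≤ V)
    (hx : α ^ 2 = x) (hy : 0 ≤ y) (hk : y ^ 2 = x ^ 3 + A * x + B) (hA : |A| ≤ R ^ 2)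
    (hB : |B| ≤ R ^ 3)
    {u₁ v₁ u₂ v₂ u₃ v₃ u₄ v₄ N₁ N₂ N₃ N₄ : ℝ}
    (hd₁ : |u₁ - α * v₁| * V ≤ N₁) (hv₁ : |v₁| ≤ N₁ * V)
    (hd₂ : |u₂ - α * v₂| * V ≤ N₂) (hv₂ : |v₂| ≤ N₂ * V)
    (hd₃ : |u₃ - α * v₃| * V ≤ N₃) (hv₃ : |v₃| ≤ N₃ * V)
    (hd₄ : |u₄ - α * v₄| * V ≤ N₄) (hv₄ : |v₄| ≤ N₄ * V) :
    |u₁ * u₂ * u₃ * u₄ - x * (u₁ * u₂ * v₃ * v₄ + u₁ * v₂ * u₃ * v₄ + u₁ * v₂ * v₃ * u₄
        + v₁ * u₂ * u₃ * v₄ + v₁ * u₂ * v₃ * u₄ + v₁ * v₂ * u₃ * u₄)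
      + 2 * y * (u₁ * v₂ * v₃ * v₄ + v₁ * u₂ * v₃ * v₄ + v₁ * v₂ * u₃ * v₄ + v₁ * v₂ * v₃ * u₄)
      - (4 * A + 3 * x ^ 2) * (v₁ * v₂ * v₃ * v₄)| ≤ 37 * R * (N₁ * N₂ * N₃ * N₄) := by
  have hR0 : 0 < R := by linarith
  have hV0 : 0 < V := by linarith
  have hN₁ : 0 ≤ N₁ := le_trans (by positivity) hd₁
  have hN₂ : 0 ≤ N₂ := le_trans (by positivity) hd₂
  have hN₃ : 0 ≤ N₃ := le_trans (by positivity) hd₃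
  have hN₄ : 0 ≤ N₄ := le_trans (by positivity) hd₄
  have hd₁' : |u₁ - α * v₁| ≤ N₁ / V := by rwa [le_div_iff₀ hV0]
  have hd₂' : |u₂ - α * v₂| ≤ N₂ / V := by rwa [le_div_iff₀ hV0]
  have hd₃' : |u₃ - α * v₃| ≤ N₃ / V := by rwa [le_div_iff₀ hV0]
  have hd₄' : |u₄ - α * v₄| ≤ N₄ / V := by rwa [le_div_iff₀ hV0]
  have hRα : R ≤ α := by
    rw [← hV]
    nlinarith [one_le_pow₀ hV1 (n := 2)]
  have hRα2 : R ≤ α ^ 2 := by nlinarith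
  have hs0 : 0 < y + α ^ 3 := by positivity
  have hsα : α ^ 3 ≤ y + α ^ 3 := by linarith
  -- `y - α³` is small
  have hprod : (y - α ^ 3) * (y + α ^ 3) = A * α ^ 2 + B := by
    rw [← hx] at hk
    linear_combination hk
  have hyk : |y - α ^ 3| * α ≤ 2 * R ^ 2 := by
    have h1 : |y - α ^ 3| * (y + α ^ 3) = |A * α ^ 2 + B| := by
      rw [← hprod, abs_mul, abs_of_pos hs0]
    have h2 : |A * α ^ 2 + B| ≤ R ^ 2 * α ^ 2 + R ^ 3 := by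
      calc |A * α ^ 2 + B| ≤ |A * α ^ 2| + |B| := abs_add_le _ _
        _ = |A| * α ^ 2 + |B| := by rw [abs_mul, abs_of_pos (by positivity : (0 : ℝ) < α ^ 2)]
        _ ≤ R ^ 2 * α ^ 2 + R ^ 3 := by gcongr
    have h3 : |y - α ^ 3| * α ^ 3 ≤ R ^ 2 * α ^ 2 + R ^ 3 := by
      calc |y - α ^ 3| * α ^ 3 ≤ |y - α ^ 3| * (y + α ^ 3) := by gcongr
        _ ≤ _ := by rw [h1]; exact h2
    have h4 : R ^ 3 ≤ R ^ 2 * α ^ 2 := by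
      calc R ^ 3 = R ^ 2 * R := by ring
        _ ≤ R ^ 2 * α ^ 2 := by gcongr
    have h5 : (|y - α ^ 3| * α) * α ^ 2 ≤ (2 * R ^ 2) * α ^ 2 := by
      calc (|y - α ^ 3| * α) * α ^ 2 = |y - α ^ 3| * α ^ 3 := by ring
        _ ≤ R ^ 2 * α ^ 2 + R ^ 3 := h3
        _ ≤ (2 * R ^ 2) * α ^ 2 := by linarith
    exact le_of_mul_le_mul_right h5 (by positivity)
  have hyV : |y - α ^ 3| * V ^ 2 ≤ 2 * R := by
    have h1 : (|y - α ^ 3| * V ^ 2) * R ≤ (2 * R) * R := by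
      calc (|y - α ^ 3| * V ^ 2) * R = |y - α ^ 3| * (V ^ 2 * R) := by ring
        _ = |y - α ^ 3| * α := by rw [hV]
        _ ≤ 2 * R ^ 2 := hyk
        _ = (2 * R) * R := by ring
    exact le_of_mul_le_mul_right h1 hR0
  -- the last coefficient is small
  have hlast : |8 * α * (y - α ^ 3) - 4 * A| * V ^ 4 ≤ 16 * R := by
    have h1 : (8 * α * (y - α ^ 3) - 4 * A) * (y + α ^ 3) = 4 * A * (α ^ 3 - y) + 8 * α * B := by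
      linear_combination (8 * α) * hprod
    have h2 : |8 * α * (y - α ^ 3) - 4 * A| * (y + α ^ 3) = |4 * A * (α ^ 3 - y) + 8 * α * B| := by
      rw [← h1, abs_mul, abs_of_pos hs0]
    have h3 : |4 * A * (α ^ 3 - y) + 8 * α * B| ≤ 4 * R ^ 2 * |y - α ^ 3| + 8 * α * R ^ 3 := by
      calc |4 * A * (α ^ 3 - y) + 8 * α * B| ≤ |4 * A * (α ^ 3 - y)| + |8 * α * B| := abs_add_le _ _
        _ = 4 * |A| * |y - α ^ 3| + 8 * α * |B| := by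
          rw [abs_mul, abs_mul, abs_mul, abs_mul, abs_of_pos (by norm_num : (0 : ℝ) < 4),
            abs_of_pos (by norm_num : (0 : ℝ) < 8), abs_of_pos hα, abs_sub_comm (α ^ 3) y]
        _ ≤ 4 * R ^ 2 * |y - α ^ 3| + 8 * α * R ^ 3 := by gcongr
    have h4 : |8 * α * (y - α ^ 3) - 4 * A| * α ^ 3 ≤ 4 * R ^ 2 * |y - α ^ 3| + 8 * α * R ^ 3 := by
      calc |8 * α * (y - α ^ 3) - 4 * A| * α ^ 3
          ≤ |8 * α * (y - α ^ 3) - 4 * A| * (y + α ^ 3) := by gcongr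
        _ ≤ _ := by rw [h2]; exact h3
    have h5 : |8 * α * (y - α ^ 3) - 4 * A| * α ^ 4 ≤ 8 * R ^ 4 + 8 * α ^ 2 * R ^ 3 := by
      calc |8 * α * (y - α ^ 3) - 4 * A| * α ^ 4
          = (|8 * α * (y - α ^ 3) - 4 * A| * α ^ 3) * α := by ring
        _ ≤ (4 * R ^ 2 * |y - α ^ 3| + 8 * α * R ^ 3) * α := by gcongr
        _ = 4 * R ^ 2 * (|y - α ^ 3| * α) + 8 * α ^ 2 * R ^ 3 := by ring
        _ ≤ 4 * R ^ 2 * (2 * R ^ 2) + 8 * α ^ 2 * R ^ 3 := by gcongr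
        _ = 8 * R ^ 4 + 8 * α ^ 2 * R ^ 3 := by ring
    have h6 : 8 * R ^ 4 ≤ 8 * α ^ 2 * R ^ 3 := by
      calc 8 * R ^ 4 = 8 * R * R ^ 3 := by ring
        _ ≤ 8 * α ^ 2 * R ^ 3 := by gcongr
    have h7 : |8 * α * (y - α ^ 3) - 4 * A| * α ^ 2 ≤ 16 * R ^ 3 := by
      have h8 : (|8 * α * (y - α ^ 3) - 4 * A| * α ^ 2) * α ^ 2 ≤ (16 * R ^ 3) * α ^ 2 := by
        calc (|8 * α * (y - α ^ 3) - 4 * A| * α ^ 2) * α ^ 2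
            = |8 * α * (y - α ^ 3) - 4 * A| * α ^ 4 := by ring
          _ ≤ (16 * R ^ 3) * α ^ 2 := by linarith
      exact le_of_mul_le_mul_right h8 (by positivity)
    have h9 : (|8 * α * (y - α ^ 3) - 4 * A| * V ^ 4) * R ^ 2 ≤ (16 * R) * R ^ 2 := by
      calc (|8 * α * (y - α ^ 3) - 4 * A| * V ^ 4) * R ^ 2
          = |8 * α * (y - α ^ 3) - 4 * A| * (V ^ 2 * R) ^ 2 := by ring
        _ = |8 * α * (y - α ^ 3) - 4 * A| * α ^ 2 := by rw [hV]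
        _ ≤ 16 * R ^ 3 := h7
        _ = (16 * R) * R ^ 2 := by ring
    exact le_of_mul_le_mul_right h9 (by positivity)
  have key : u₁ * u₂ * u₃ * u₄ - x * (u₁ * u₂ * v₃ * v₄ + u₁ * v₂ * u₃ * v₄ + u₁ * v₂ * v₃ * u₄
        + v₁ * u₂ * u₃ * v₄ + v₁ * u₂ * v₃ * u₄ + v₁ * v₂ * u₃ * u₄)
      + 2 * y * (u₁ * v₂ * v₃ * v₄ + v₁ * u₂ * v₃ * v₄ + v₁ * v₂ * u₃ * v₄ + v₁ * v₂ * v₃ * u₄)
      - (4 * A + 3 * x ^ 2) * (v₁ * v₂ * v₃ * v₄) =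
      (u₁ - α * v₁) * (u₂ - α * v₂) * (u₃ - α * v₃) * (u₄ - α * v₄)
      + α * (v₁ * (u₂ - α * v₂) * (u₃ - α * v₃) * (u₄ - α * v₄))
      + α * ((u₁ - α * v₁) * v₂ * (u₃ - α * v₃) * (u₄ - α * v₄))
      + α * ((u₁ - α * v₁) * (u₂ - α * v₂) * v₃ * (u₄ - α * v₄))
      + α * ((u₁ - α * v₁) * (u₂ - α * v₂) * (u₃ - α * v₃) * v₄)
      + 2 * (y - α ^ 3) * ((u₁ - α * v₁) * v₂ * v₃ * v₄)
      + 2 * (y - α ^ 3) * (v₁ * (u₂ - α * v₂) * v₃ * v₄)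
      + 2 * (y - α ^ 3) * (v₁ * v₂ * (u₃ - α * v₃) * v₄)
      + 2 * (y - α ^ 3) * (v₁ * v₂ * v₃ * (u₄ - α * v₄))
      + (8 * α * (y - α ^ 3) - 4 * A) * (v₁ * v₂ * v₃ * v₄) := by
    rw [← hx]
    ring
  have hP : 0 ≤ N₁ * N₂ * N₃ * N₄ := by positivity
  have hαV : α = V ^ 2 * R := hV.symm
  have b0 : |(u₁ - α * v₁) * (u₂ - α * v₂) * (u₃ - α * v₃) * (u₄ - α * v₄)| ≤
      R * (N₁ * N₂ * N₃ * N₄) := by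
    rw [abs_mul, abs_mul, abs_mul]
    have e₁ : |u₁ - α * v₁| ≤ N₁ := hd₁'.trans (div_le_self hN₁ hV1)
    have e₂ : |u₂ - α * v₂| ≤ N₂ := hd₂'.trans (div_le_self hN₂ hV1)
    have e₃ : |u₃ - α * v₃| ≤ N₃ := hd₃'.trans (div_le_self hN₃ hV1)
    have e₄ : |u₄ - α * v₄| ≤ N₄ := hd₄'.trans (div_le_self hN₄ hV1)
    have h1 : |u₁ - α * v₁| * |u₂ - α * v₂| * |u₃ - α * v₃| * |u₄ - α * v₄| ≤ N₁ * N₂ * N₃ * N₄ := by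
      gcongr
    have h2 : 1 * (N₁ * N₂ * N₃ * N₄) ≤ R * (N₁ * N₂ * N₃ * N₄) :=
      mul_le_mul_of_nonneg_right (by linarith) hP
    linarith
  have b1 : |α * (v₁ * (u₂ - α * v₂) * (u₃ - α * v₃) * (u₄ - α * v₄))| ≤
      R * (N₁ * N₂ * N₃ * N₄) := by
    rw [abs_mul, abs_mul, abs_mul, abs_mul, abs_of_pos hα]
    calc α * (|v₁| * |u₂ - α * v₂| * |u₃ - α * v₃| * |u₄ - α * v₄|)
        ≤ α * ((N₁ * V) * (N₂ / V) * (N₃ / V) * (N₄ / V)) := by gcongr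
      _ = R * (N₁ * N₂ * N₃ * N₄) := by rw [hαV]; field_simp
  have b2 : |α * ((u₁ - α * v₁) * v₂ * (u₃ - α * v₃) * (u₄ - α * v₄))| ≤
      R * (N₁ * N₂ * N₃ * N₄) := by
    rw [abs_mul, abs_mul, abs_mul, abs_mul, abs_of_pos hα]
    calc α * (|u₁ - α * v₁| * |v₂| * |u₃ - α * v₃| * |u₄ - α * v₄|)
        ≤ α * ((N₁ / V) * (N₂ * V) * (N₃ / V) * (N₄ / V)) := by gcongr
      _ = R * (N₁ * N₂ * N₃ * N₄) := by rw [hαV]; field_simp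
  have b3 : |α * ((u₁ - α * v₁) * (u₂ - α * v₂) * v₃ * (u₄ - α * v₄))| ≤
      R * (N₁ * N₂ * N₃ * N₄) := by
    rw [abs_mul, abs_mul, abs_mul, abs_mul, abs_of_pos hα]
    calc α * (|u₁ - α * v₁| * |u₂ - α * v₂| * |v₃| * |u₄ - α * v₄|)
        ≤ α * ((N₁ / V) * (N₂ / V) * (N₃ * V) * (N₄ / V)) := by gcongr
      _ = R * (N₁ * N₂ * N₃ * N₄) := by rw [hαV]; field_simp
  have b4 : |α * ((u₁ - α * v₁) * (u₂ - α * v₂) * (u₃ - α * v₃) * v₄)| ≤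
      R * (N₁ * N₂ * N₃ * N₄) := by
    rw [abs_mul, abs_mul, abs_mul, abs_mul, abs_of_pos hα]
    calc α * (|u₁ - α * v₁| * |u₂ - α * v₂| * |u₃ - α * v₃| * |v₄|)
        ≤ α * ((N₁ / V) * (N₂ / V) * (N₃ / V) * (N₄ * V)) := by gcongr
      _ = R * (N₁ * N₂ * N₃ * N₄) := by rw [hαV]; field_simp
  have c1 : |2 * (y - α ^ 3) * ((u₁ - α * v₁) * v₂ * v₃ * v₄)| ≤ 4 * R * (N₁ * N₂ * N₃ * N₄) := by
    rw [abs_mul, abs_mul, abs_mul, abs_mul, abs_mul, abs_of_pos (by norm_num : (0 : ℝ) < 2)]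
    calc 2 * |y - α ^ 3| * (|u₁ - α * v₁| * |v₂| * |v₃| * |v₄|)
        ≤ 2 * |y - α ^ 3| * ((N₁ / V) * (N₂ * V) * (N₃ * V) * (N₄ * V)) := by gcongr
      _ = 2 * (|y - α ^ 3| * V ^ 2) * (N₁ * N₂ * N₃ * N₄) := by field_simp
      _ ≤ 2 * (2 * R) * (N₁ * N₂ * N₃ * N₄) := by gcongr
      _ = 4 * R * (N₁ * N₂ * N₃ * N₄) := by ring
  have c2 : |2 * (y - α ^ 3) * (v₁ * (u₂ - α * v₂) * v₃ * v₄)| ≤ 4 * R * (N₁ * N₂ * N₃ * N₄) := by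
    rw [abs_mul, abs_mul, abs_mul, abs_mul, abs_mul, abs_of_pos (by norm_num : (0 : ℝ) < 2)]
    calc 2 * |y - α ^ 3| * (|v₁| * |u₂ - α * v₂| * |v₃| * |v₄|)
        ≤ 2 * |y - α ^ 3| * ((N₁ * V) * (N₂ / V) * (N₃ * V) * (N₄ * V)) := by gcongr
      _ = 2 * (|y - α ^ 3| * V ^ 2) * (N₁ * N₂ * N₃ * N₄) := by field_simp
      _ ≤ 2 * (2 * R) * (N₁ * N₂ * N₃ * N₄) := by gcongr
      _ = 4 * R * (N₁ * N₂ * N₃ * N₄) := by ring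
  have c3 : |2 * (y - α ^ 3) * (v₁ * v₂ * (u₃ - α * v₃) * v₄)| ≤ 4 * R * (N₁ * N₂ * N₃ * N₄) := by
    rw [abs_mul, abs_mul, abs_mul, abs_mul, abs_mul, abs_of_pos (by norm_num : (0 : ℝ) < 2)]
    calc 2 * |y - α ^ 3| * (|v₁| * |v₂| * |u₃ - α * v₃| * |v₄|)
        ≤ 2 * |y - α ^ 3| * ((N₁ * V) * (N₂ * V) * (N₃ / V) * (N₄ * V)) := by gcongr
      _ = 2 * (|y - α ^ 3| * V ^ 2) * (N₁ * N₂ * N₃ * N₄) := by field_simp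
      _ ≤ 2 * (2 * R) * (N₁ * N₂ * N₃ * N₄) := by gcongr
      _ = 4 * R * (N₁ * N₂ * N₃ * N₄) := by ring
  have c4 : |2 * (y - α ^ 3) * (v₁ * v₂ * v₃ * (u₄ - α * v₄))| ≤ 4 * R * (N₁ * N₂ * N₃ * N₄) := by
    rw [abs_mul, abs_mul, abs_mul, abs_mul, abs_mul, abs_of_pos (by norm_num : (0 : ℝ) < 2)]
    calc 2 * |y - α ^ 3| * (|v₁| * |v₂| * |v₃| * |u₄ - α * v₄|)
        ≤ 2 * |y - α ^ 3| * ((N₁ * V) * (N₂ * V) * (N₃ * V) * (N₄ / V)) := by gcongr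
      _ = 2 * (|y - α ^ 3| * V ^ 2) * (N₁ * N₂ * N₃ * N₄) := by field_simp
      _ ≤ 2 * (2 * R) * (N₁ * N₂ * N₃ * N₄) := by gcongr
      _ = 4 * R * (N₁ * N₂ * N₃ * N₄) := by ring
  have d1 : |(8 * α * (y - α ^ 3) - 4 * A) * (v₁ * v₂ * v₃ * v₄)| ≤
      16 * R * (N₁ * N₂ * N₃ * N₄) := by
    rw [abs_mul, abs_mul (v₁ * v₂ * v₃), abs_mul (v₁ * v₂), abs_mul v₁]
    calc |8 * α * (y - α ^ 3) - 4 * A| * (|v₁| * |v₂| * |v₃| * |v₄|)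
        ≤ |8 * α * (y - α ^ 3) - 4 * A| * ((N₁ * V) * (N₂ * V) * (N₃ * V) * (N₄ * V)) := by gcongr
      _ = (|8 * α * (y - α ^ 3) - 4 * A| * V ^ 4) * (N₁ * N₂ * N₃ * N₄) := by ring
      _ ≤ (16 * R) * (N₁ * N₂ * N₃ * N₄) := by gcongr
  rw [key]
  generalize N₁ * N₂ * N₃ * N₄ = P at *
  rw [abs_le] at b0 b1 b2 b3 b4 c1 c2 c3 c4 d1 ⊢
  constructor
  · linarith [b0.1, b1.1, b2.1, b3.1, b4.1, c1.1, c2.1, c3.1, c4.1, d1.1]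
  · linarith [b0.2, b1.2, b2.2, b3.2, b4.2, c1.2, c2.2, c3.2, c4.2, d1.2]

theorem gds : StmtGDS := by
  intro R α V V₀ T hR hα hV hV₀ hV₀V hV2 hT x y A B hx hy hk hA hB u₁ v₁ u₂ v₂ hdet hv₁ h1 h2
  have hT0 : 0 < T := by linarith
  have hR0 : 0 < R := by linarith
  have hV1 : 1 ≤ V := hV₀.trans hV₀V
  have hV0 : 0 < V := by linarith
  have hy' : (0 : ℝ) ≤ y := by exact_mod_cast hy
  have hk' : (y : ℝ) ^ 2 = (x : ℝ) ^ 3 + A * x + B := by exact_mod_cast hk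
  -- norms
  have n1 : |((u₁ : ℝ) - α * v₁) * V| ≤ 1 / T := by
    apply abs_le_of_sq_le_sq _ (by positivity)
    rw [div_pow, one_pow, le_div_iff₀ (by positivity)]
    nlinarith [sq_nonneg ((v₁ : ℝ) / V * T)]
  have n2 : |(v₁ : ℝ) / V| ≤ 1 / T := by
    apply abs_le_of_sq_le_sq _ (by positivity)
    rw [div_pow, div_pow, one_pow, le_div_iff₀ (by positivity)]
    rw [div_pow] at h1
    nlinarith [sq_nonneg (((u₁ : ℝ) - α * v₁) * V * T)]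
  have n3 : |((u₂ : ℝ) - α * v₂) * V| ≤ 3 * T := by
    apply abs_le_of_sq_le_sq _ (by positivity)
    nlinarith [sq_nonneg ((v₂ : ℝ) / V), sq_nonneg T]
  have n4 : |(v₂ : ℝ) / V| ≤ 3 * T := by
    apply abs_le_of_sq_le_sq _ (by positivity)
    nlinarith [sq_nonneg (((u₂ : ℝ) - α * v₂) * V), sq_nonneg T]
  rw [abs_mul, abs_of_pos hV0] at n1 n3
  rw [abs_div, abs_of_pos hV0, div_le_iff₀ hV0] at n2 n4
  have K := fun {a b c d e g p q : ℝ} {N₁ N₂ N₃ N₄ : ℝ} (p1 : |a - α * b| * V ≤ N₁)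
    (p2 : |b| ≤ N₁ * V) (p3 : |c - α * d| * V ≤ N₂) (p4 : |d| ≤ N₂ * V)
    (p5 : |e - α * g| * V ≤ N₃) (p6 : |g| ≤ N₃ * V) (p7 : |p - α * q| * V ≤ N₄)
    (p8 : |q| ≤ N₄ * V) => quad_bound hR hα hV hV1 hx hy' hk' hA hB p1 p2 p3 p4 p5 p6 p7 p8
  have ba := K n1 n2 n1 n2 n1 n2 n1 n2
  have bb := K n1 n2 n1 n2 n1 n2 n3 n4
  have bc := K n1 n2 n1 n2 n3 n4 n3 n4
  have bd := K n3 n4 n3 n4 n3 n4 n1 n2
  have be := K n3 n4 n3 n4 n3 n4 n3 n4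
  constructor
  · have e : ((qA A x y u₁ v₁ : ℤ) : ℝ) = (u₁ : ℝ) * u₁ * u₁ * u₁
        - x * ((u₁ : ℝ) * u₁ * v₁ * v₁ + u₁ * v₁ * u₁ * v₁ + u₁ * v₁ * v₁ * u₁
          + v₁ * u₁ * u₁ * v₁ + v₁ * u₁ * v₁ * u₁ + v₁ * v₁ * u₁ * u₁)
        + 2 * y * ((u₁ : ℝ) * v₁ * v₁ * v₁ + v₁ * u₁ * v₁ * v₁ + v₁ * v₁ * u₁ * v₁
          + v₁ * v₁ * v₁ * u₁)
        - (4 * A + 3 * (x : ℝ) ^ 2) * (v₁ * v₁ * v₁ * v₁) := by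
      unfold qA; push_cast; ring
    rw [e]
    calc _ ≤ 37 * R * (1 / T * (1 / T) * (1 / T) * (1 / T)) * T ^ 4 := by gcongr
      _ = 37 * R := by field_simp
      _ ≤ 3000 * R := by linarith
  · have e : ((qB A x y u₁ v₁ u₂ v₂ : ℤ) : ℝ) = (u₁ : ℝ) * u₁ * u₁ * u₂
        - x * ((u₁ : ℝ) * u₁ * v₁ * v₂ + u₁ * v₁ * u₁ * v₂ + u₁ * v₁ * v₁ * u₂
          + v₁ * u₁ * u₁ * v₂ + v₁ * u₁ * v₁ * u₂ + v₁ * v₁ * u₁ * u₂)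
        + 2 * y * ((u₁ : ℝ) * v₁ * v₁ * v₂ + v₁ * u₁ * v₁ * v₂ + v₁ * v₁ * u₁ * v₂
          + v₁ * v₁ * v₁ * u₂)
        - (4 * A + 3 * (x : ℝ) ^ 2) * (v₁ * v₁ * v₁ * v₂) := by
      unfold qB; push_cast; ring
    rw [e]
    calc _ ≤ 37 * R * (1 / T * (1 / T) * (1 / T) * (3 * T)) * T ^ 2 := by gcongr
      _ = 111 * R := by field_simp; ring
      _ ≤ 3000 * R := by linarith
  · have e : ((qC A x y u₁ v₁ u₂ v₂ : ℤ) : ℝ) = (u₁ : ℝ) * u₁ * u₂ * u₂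
        - x * ((u₁ : ℝ) * u₁ * v₂ * v₂ + u₁ * v₁ * u₂ * v₂ + u₁ * v₁ * v₂ * u₂
          + v₁ * u₁ * u₂ * v₂ + v₁ * u₁ * v₂ * u₂ + v₁ * v₁ * u₂ * u₂)
        + 2 * y * ((u₁ : ℝ) * v₁ * v₂ * v₂ + v₁ * u₁ * v₂ * v₂ + v₁ * v₁ * u₂ * v₂
          + v₁ * v₁ * v₂ * u₂)
        - (4 * A + 3 * (x : ℝ) ^ 2) * (v₁ * v₁ * v₂ * v₂) := by
      unfold qC; push_cast; ring
    rw [e]
    calc _ ≤ 37 * R * (1 / T * (1 / T) * (3 * T) * (3 * T)) := bc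
      _ = 333 * R := by field_simp; ring
      _ ≤ 3000 * R := by linarith
  · have e : ((qB A x y u₂ v₂ u₁ v₁ : ℤ) : ℝ) = (u₂ : ℝ) * u₂ * u₂ * u₁
        - x * ((u₂ : ℝ) * u₂ * v₂ * v₁ + u₂ * v₂ * u₂ * v₁ + u₂ * v₂ * v₂ * u₁
          + v₂ * u₂ * u₂ * v₁ + v₂ * u₂ * v₂ * u₁ + v₂ * v₂ * u₂ * u₁)
        + 2 * y * ((u₂ : ℝ) * v₂ * v₂ * v₁ + v₂ * u₂ * v₂ * v₁ + v₂ * v₂ * u₂ * v₁
          + v₂ * v₂ * v₂ * u₁)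
        - (4 * A + 3 * (x : ℝ) ^ 2) * (v₂ * v₂ * v₂ * v₁) := by
      unfold qB; push_cast; ring
    rw [e]
    calc _ ≤ 37 * R * (3 * T * (3 * T) * (3 * T) * (1 / T)) := bd
      _ = 999 * (R * T ^ 2) := by field_simp; ring
      _ ≤ 3000 * (R * T ^ 2) := by linarith [mul_pos hR0 (pow_pos hT0 2)]
  · have e : ((qA A x y u₂ v₂ : ℤ) : ℝ) = (u₂ : ℝ) * u₂ * u₂ * u₂
        - x * ((u₂ : ℝ) * u₂ * v₂ * v₂ + u₂ * v₂ * u₂ * v₂ + u₂ * v₂ * v₂ * u₂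
          + v₂ * u₂ * u₂ * v₂ + v₂ * u₂ * v₂ * u₂ + v₂ * v₂ * u₂ * u₂)
        + 2 * y * ((u₂ : ℝ) * v₂ * v₂ * v₂ + v₂ * u₂ * v₂ * v₂ + v₂ * v₂ * u₂ * v₂
          + v₂ * v₂ * v₂ * u₂)
        - (4 * A + 3 * (x : ℝ) ^ 2) * (v₂ * v₂ * v₂ * v₂) := by
      unfold qA; push_cast; ring
    rw [e]
    calc _ ≤ 37 * R * (3 * T * (3 * T) * (3 * T) * (3 * T)) := be
      _ = 2997 * (R * T ^ 4) := by ring
      _ ≤ 3000 * (R * T ^ 4) := by linarith [mul_pos hR0 (pow_pos hT0 4)]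
  · nlinarith [mul_pos hT0 hV0]
  · push_cast
    rw [abs_neg]
    calc |(v₁ : ℝ)| * T ≤ (1 / T * V) * T := by gcongr
      _ = V := by field_simp
      _ ≤ 3000 * V₀ := by linarith
  · have e : qv (qA A x y u₁ v₁) (qB A x y u₁ v₁ u₂ v₂) (qC A x y u₁ v₁ u₂ v₂)
        (qB A x y u₂ v₂ u₁ v₁) (qA A x y u₂ v₂) v₂ (-v₁) = (u₁ * v₂ - u₂ * v₁) ^ 4 := by
      unfold qv qA qB qC; ring
    rw [e, hdet]; norm_num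

end Pool.Agent.Q234.HL.GDS
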